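import Pool.Agent.T9h95.SC.P1

/-!
The fibre bound: a family of vectors of `(ZMod p)^n` all of whose partial sums miss a value is small.
-/

namespace Pool.Agent.T9h20.SC

open Finset
open scoped Pointwise

/-- Cauchy-Davenport for `p - 1` two-element sets, in terms of choices. -/
theorem card_choices {p : ℕ} [Fact p.Prime] {n : ℕ} (f g : Fin n → ZMod p) (S : Finset (Fin n))
    (hfg : ∀ j ∈ S, f j ≠ g j) :
    min p (S.card + 1) ≤
      (S.powerset.image (fun J => ∑ j ∈ S, if j ∈ J then g j else f j)).card := by
  classical
  induction S using Finset.induction_on with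
  | empty =>
    simp
  | insert a S ha ih =>
    have ih' := ih (fun j hj => hfg j (Finset.mem_insert_of_mem hj))
    have hab : f a ≠ g a := hfg a (Finset.mem_insert_self a S)
    have hsub : (S.powerset.image (fun J => ∑ j ∈ S, if j ∈ J then g j else f j)) + {f a, g a} ⊆
        (insert a S).powerset.image (fun J => ∑ j ∈ insert a S, if j ∈ J then g j else f j) := by
      intro y hy
      rw [Finset.mem_add] at hy
      obtain ⟨u, hu, v, hv, rfl⟩ := hy
      rw [Finset.mem_image] at hu
      obtain ⟨J, hJ, rfl⟩ := hu
      rw [Finset.mem_powerset] at hJ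
      rw [Finset.mem_image]
      have haJ : a ∉ J := fun h => ha (hJ h)
      simp only [Finset.mem_insert, Finset.mem_singleton] at hv
      rcases hv with rfl | rfl
      · refine ⟨J, Finset.mem_powerset.2 (hJ.trans (Finset.subset_insert a S)), ?_⟩
        rw [Finset.sum_insert ha, if_neg haJ, add_comm]
      · refine ⟨insert a J, Finset.mem_powerset.2 (Finset.insert_subset_insert a hJ), ?_⟩
        rw [Finset.sum_insert ha, if_pos (Finset.mem_insert_self a J), add_comm]
        congr 1
        refine Finset.sum_congr rfl fun j hj => ?_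
        have : j ≠ a := fun h => ha (h ▸ hj)
        simp [this]
    refine le_trans ?_ (Finset.card_le_card hsub)
    have hne : (S.powerset.image (fun J => ∑ j ∈ S, if j ∈ J then g j else f j)).Nonempty :=
      ⟨_, Finset.mem_image_of_mem _ (Finset.empty_mem_powerset S)⟩
    have hcd := ZMod.cauchy_davenport (Fact.out : p.Prime) hne
      (t := {f a, g a}) ⟨f a, by simp⟩
    rw [Finset.card_pair hab] at hcd
    rw [Finset.card_insert_of_notMem ha]
    refine le_trans ?_ hcd
    refine le_min (min_le_left _ _) ?_
    rcases le_total p (S.card + 1) with h | h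
    · rw [min_eq_left h] at ih'
      have h1 := min_le_left p (S.card + 1 + 1)
      omega
    · rw [min_eq_right h] at ih'
      have h1 := min_le_right p (S.card + 1 + 1)
      omega

theorem stFiber : StFiber := by
  classical
  intro p hp X hX n S Y hout hmiss
  by_contra hlt
  push Not at hlt
  obtain ⟨S', f, g, hS', hfg, hJ⟩ := stShatter (ZMod p) X 1 hX n (p - 1)
    (fun w => if w ∈ Y then 1 else 0) (fun w => by split_ifs <;> simp) (by
      rw [one_mul, ZMod.card]
      rw [Finset.sum_ite_mem, Finset.univ_inter]
      simpa using hlt)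
  have hex : ∀ J ⊆ S', ∃ w ∈ Y, ∀ j ∈ S', w j = if j ∈ J then g j else f j := by
    intro J hJS
    have h1 := hJ J hJS
    by_contra hno
    push Not at hno
    have h2 : ∑ τ ∈ univ.filter
        (fun τ : Fin n → ZMod p => ∀ j ∈ S', τ j = if j ∈ J then g j else f j),
        (if τ ∈ Y then 1 else 0) = 0 := by
      refine Finset.sum_eq_zero fun τ hτ => ?_
      rw [Finset.mem_filter] at hτ
      rw [if_neg]
      intro hY
      obtain ⟨j, hj, hne⟩ := hno τ hY
      exact hne (hτ.2 j hj)
    omega
  have hsub : S' ⊆ S := by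
    intro j hj
    by_contra hjS
    obtain ⟨w, hw, hwj⟩ := hex ∅ (Finset.empty_subset _)
    obtain ⟨w', hw', hwj'⟩ := hex {j} (by simpa using hj)
    have h1 := hwj j hj
    have h2 := hwj' j hj
    simp only [Finset.notMem_empty, if_false, Finset.mem_singleton, if_true] at h1 h2
    have h3 := hout w hw w' hw' j hjS
    rw [h1, h2] at h3
    exact hfg j hj h3
  obtain ⟨y, hy⟩ := hmiss S' hsub
  have hcard := card_choices f g S' hfg
  have hp1 : 1 ≤ p := hp.out.one_lt.le
  rw [hS', Nat.sub_add_cancel hp1, min_self] at hcard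
  have huniv : (S'.powerset.image (fun J => ∑ j ∈ S', if j ∈ J then g j else f j)) = univ := by
    rw [← Finset.card_eq_iff_eq_univ, ZMod.card]
    exact le_antisymm ((Finset.card_le_univ _).trans_eq (ZMod.card p)) hcard
  have hmem : y ∈ (S'.powerset.image (fun J => ∑ j ∈ S', if j ∈ J then g j else f j)) := by
    rw [huniv]
    exact mem_univ y
  rw [Finset.mem_image] at hmem
  obtain ⟨J, hJ', hsum⟩ := hmem
  rw [Finset.mem_powerset] at hJ'
  obtain ⟨w, hw, hwj⟩ := hex J hJ'
  refine hy w hw ?_
  rw [← hsum]
  exact Finset.sum_congr rfl hwj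

end Pool.Agent.T9h20.SC
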