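import Pool.Agent.T9h20.SC.Spec

/-!
There are many vectors with total sum one and all of whose sums over the parts of a partial
partition vanish.
-/

namespace Pool.Agent.T9h20.SC

open Finset

theorem stNeg : StNeg := by
  classical
  intro p hp Λ _ _ _ n τ i₀ h0
  refine ⟨univ.filter (fun w => Ev w τ ∧ ∑ i, w i = 1), fun w hw => (Finset.mem_filter.1 hw).2, ?_⟩
  -- the vector of the sums over the parts, with the total sum at the label zero
  set Φ : (Fin n → ZMod p) → (Λ → ZMod p) := fun w c =>
    if c = 0 then ∑ i, w i else ∑ i ∈ univ.filter (fun i => τ i = c), w i with hΦ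
  have hsub : ∀ w w' : Fin n → ZMod p, Φ (w - w') = Φ w - Φ w' := by
    intro w w'
    funext c
    simp only [hΦ, Pi.sub_apply]
    split_ifs <;> rw [Finset.sum_sub_distrib]
  have hadd : ∀ w w' : Fin n → ZMod p, Φ (w + w') = Φ w + Φ w' := by
    intro w w'
    funext c
    simp only [hΦ, Pi.add_apply]
    split_ifs <;> rw [Finset.sum_add_distrib]
  set e : Λ → ZMod p := fun c => if c = 0 then 1 else 0 with he
  have hZ : univ.filter (fun w => Ev w τ ∧ ∑ i, w i = 1) =
      univ.filter (fun w : Fin n → ZMod p => Φ w = e) := by
    ext w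
    simp only [Finset.mem_filter, Finset.mem_univ, true_and]
    constructor
    · rintro ⟨h1, h2⟩
      funext c
      simp only [hΦ, he]
      split_ifs with hc
      · exact h2
      · exact h1 c hc
    · intro h
      refine ⟨fun c hc => ?_, ?_⟩
      · have := congrFun h c
        simpa only [hΦ, he, if_neg hc] using this
      · have := congrFun h 0
        simpa only [hΦ, he, if_true] using this
  rw [hZ]
  have hw0 : Φ (Pi.single i₀ 1) = e := by
    funext c
    simp only [hΦ, he]
    split_ifs with hc
    · simp
    · refine Finset.sum_eq_zero fun i hi => ?_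
      rw [Finset.mem_filter] at hi
      rw [Pi.single_apply, if_neg]
      rintro rfl
      exact hc (hi.2.symm.trans h0)
  have hfib : ∀ v : Λ → ZMod p, (univ.filter (fun w : Fin n → ZMod p => Φ w = v)).card ≤
      (univ.filter (fun w : Fin n → ZMod p => Φ w = e)).card := by
    intro v
    rcases (univ.filter (fun w : Fin n → ZMod p => Φ w = v)).eq_empty_or_nonempty with h | ⟨w₁, h1⟩
    · rw [h]; simp
    · rw [Finset.mem_filter] at h1
      refine Finset.card_le_card_of_injOn (fun w => w - w₁ + Pi.single i₀ 1) ?_ ?_
      · intro w hw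
        have hw' : Φ w = v := by simpa using hw
        have : Φ (w - w₁ + Pi.single i₀ 1) = e := by
          rw [hadd, hsub, hw', h1.2, sub_self, zero_add, hw0]
        simpa using this
      · intro a _ b _ hab
        simpa using hab
  have hcount : (univ : Finset (Fin n → ZMod p)).card =
      ∑ v : Λ → ZMod p, (univ.filter (fun w : Fin n → ZMod p => Φ w = v)).card :=
    Finset.card_eq_sum_card_fiberwise (fun w _ => mem_univ (Φ w))
  have hcard : (univ : Finset (Fin n → ZMod p)).card = p ^ n := by
    rw [Finset.card_univ, Fintype.card_fun, ZMod.card, Fintype.card_fin]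
  have hcard' : (univ : Finset (Λ → ZMod p)).card = p ^ Fintype.card Λ := by
    rw [Finset.card_univ, Fintype.card_fun, ZMod.card]
  rw [← hcard, hcount, ← hcard', ← smul_eq_mul]
  exact Finset.sum_le_card_nsmul _ _ _ (fun v _ => hfib v)

end Pool.Agent.T9h20.SC
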