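import Pool.Agent.T9h20.SC.Spec

/-!
Robust pair shattering (Natarajan's lemma with multiplicities).
-/

namespace Pool.Agent.T9h20.SC

open Finset

theorem sum_le_sup_add_min {Λ : Type} [Fintype Λ] [DecidableEq Λ] (x : Λ → ℕ) :
    ∑ a, x a ≤ univ.sup x +
      ∑ q ∈ (univ : Finset (Λ × Λ)).filter (fun q => q.1 ≠ q.2), min (x q.1) (x q.2) := by
  rcases isEmpty_or_nonempty Λ with h | h
  · simp
  obtain ⟨m, -, hm⟩ := Finset.exists_mem_eq_sup univ univ_nonempty x
  rw [hm, ← Finset.add_sum_erase univ x (mem_univ m)]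
  refine Nat.add_le_add_left ?_ _
  have h1 : ∑ a ∈ univ.erase m, x a
      = ∑ q ∈ (univ.erase m).image (fun a : Λ => (m, a)), min (x q.1) (x q.2) := by
    rw [Finset.sum_image (fun a _ b _ h => (Prod.mk.inj h).2)]
    refine Finset.sum_congr rfl fun a _ => ?_
    have h2 : x a ≤ x m := by
      rw [← hm]
      exact Finset.le_sup (f := x) (mem_univ a)
    simp [h2]
  rw [h1]
  refine Finset.sum_le_sum_of_subset ?_
  intro q hq
  simp only [Finset.mem_image, Finset.mem_erase, Finset.mem_univ, and_true] at hq
  obtain ⟨a, ha, rfl⟩ := hq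
  simp only [Finset.mem_filter, Finset.mem_univ, true_and]
  exact fun h => ha h.symm

theorem sum_cons {Λ : Type} [Fintype Λ] (n : ℕ) (ω : (Fin (n + 1) → Λ) → ℕ) :
    ∑ τ, ω τ = ∑ a, ∑ z : Fin n → Λ, ω (Fin.cons a z) := by
  rw [← Fintype.sum_prod_type']
  exact (Fintype.sum_equiv (Fin.consEquiv (fun _ : Fin (n + 1) => Λ)) _ _ (fun x => rfl)).symm

theorem stShatter : StShatter := by
  intro Λ _ _ X θ hX n
  induction n with
  | zero =>
    intro k ω hω hsum
    exfalso
    have h1 : ∑ τ, ω τ ≤ θ := by
      rw [Fintype.sum_unique]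
      exact hω _
    simp only [pow_zero, mul_one] at hsum
    have h2 : 1 ≤ X ^ k := Nat.one_le_pow _ _ hX
    nlinarith
  | succ n ih =>
    intro k ω hω hsum
    have hne : Nonempty Λ := by
      by_contra h
      rw [not_nonempty_iff] at h
      rw [sum_cons] at hsum
      simp at hsum
    obtain ⟨a₀⟩ := hne
    rcases Nat.eq_zero_or_pos k with rfl | hk
    · refine ⟨∅, fun _ => a₀, fun _ => a₀, rfl, by simp, fun J _ => ?_⟩
      simp only [Finset.notMem_empty, false_imp_iff, implies_true, Finset.filter_true]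
      simp only [pow_zero, mul_one] at hsum
      by_contra hlt
      push Not at hlt
      have h1 : X ^ (n + 1) ≤ (X + Fintype.card Λ ^ 2) ^ (n + 1) :=
        Nat.pow_le_pow_left (Nat.le_add_right _ _) _
      have h2 : (∑ τ, ω τ) * X ^ (n + 1) ≤ θ * (X + Fintype.card Λ ^ 2) ^ (n + 1) :=
        Nat.mul_le_mul hlt.le h1
      omega
    -- the two recursive cases
    by_cases hmax : θ * X ^ k * (X + Fintype.card Λ ^ 2) ^ n
        < (∑ z : Fin n → Λ, univ.sup (fun a => ω (Fin.cons a z))) * X ^ n
    · obtain ⟨S, f, g, hS, hfg, hJ⟩ := ih k (fun z => univ.sup (fun a => ω (Fin.cons a z)))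
        (fun z => Finset.sup_le fun a _ => hω _) hmax
      refine ⟨S.map (Fin.succEmb n), Fin.cons a₀ f, Fin.cons a₀ g, by simpa using hS, ?_, ?_⟩
      · intro j hj
        simp only [Finset.mem_map, Fin.coe_succEmb] at hj
        obtain ⟨i, hi, rfl⟩ := hj
        simpa using hfg i hi
      · intro J _
        refine (hJ (S.filter (fun i => i.succ ∈ J)) (Finset.filter_subset _ _)).trans ?_
        rw [Finset.sum_filter, Finset.sum_filter, sum_cons, Finset.sum_comm]
        refine Finset.sum_le_sum fun z _ => ?_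
        have hiff : ∀ a, (∀ j ∈ S.map (Fin.succEmb n), (Fin.cons a z : Fin (n + 1) → Λ) j =
            if j ∈ J then (Fin.cons a₀ g : Fin (n + 1) → Λ) j
              else (Fin.cons a₀ f : Fin (n + 1) → Λ) j) ↔
            (∀ j ∈ S, z j = if j ∈ S.filter (fun i => i.succ ∈ J) then g j else f j) := by
          intro a
          constructor
          · intro h j hj
            have := h j.succ (by simpa using hj)
            simp only [Fin.cons_succ] at this
            rw [this]
            simp [hj]
          · intro h j hj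
            simp only [Finset.mem_map, Fin.coe_succEmb] at hj
            obtain ⟨i, hi, rfl⟩ := hj
            simp only [Fin.cons_succ]
            rw [h i hi]
            simp [hi]
        simp only [hiff]
        split_ifs with hz
        · refine Finset.sup_le fun a ha => ?_
          exact Finset.single_le_sum (f := fun a => ω (Fin.cons a z)) (fun _ _ => Nat.zero_le _) ha
        · exact Nat.zero_le _
    by_cases hmin : ∃ q : Λ × Λ, q.1 ≠ q.2 ∧ θ * X ^ (k - 1) * (X + Fintype.card Λ ^ 2) ^ n
        < (∑ z : Fin n → Λ, min (ω (Fin.cons q.1 z)) (ω (Fin.cons q.2 z))) * X ^ n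
    · obtain ⟨⟨a, b⟩, hab, hq⟩ := hmin
      simp only at hab hq
      obtain ⟨S, f, g, hS, hfg, hJ⟩ := ih (k - 1)
        (fun z => min (ω (Fin.cons a z)) (ω (Fin.cons b z)))
        (fun z => (min_le_left _ _).trans (hω _)) hq
      refine ⟨insert 0 (S.map (Fin.succEmb n)), Fin.cons a f, Fin.cons b g, ?_, ?_, ?_⟩
      · rw [Finset.card_insert_of_notMem, Finset.card_map, hS]
        · omega
        · simp [Fin.succ_ne_zero]
      · intro j hj
        simp only [Finset.mem_insert, Finset.mem_map, Fin.coe_succEmb] at hj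
        rcases hj with rfl | ⟨i, hi, rfl⟩
        · simpa using hab
        · simpa using hfg i hi
      · intro J _
        refine (hJ (S.filter (fun i => i.succ ∈ J)) (Finset.filter_subset _ _)).trans ?_
        rw [Finset.sum_filter, Finset.sum_filter, sum_cons, Finset.sum_comm]
        refine Finset.sum_le_sum fun z _ => ?_
        split_ifs with hz
        · have hP : ∀ j ∈ insert 0 (S.map (Fin.succEmb n)),
              (Fin.cons (if (0 : Fin (n + 1)) ∈ J then b else a) z : Fin (n + 1) → Λ) j =
              if j ∈ J then (Fin.cons b g : Fin (n + 1) → Λ) j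
                else (Fin.cons a f : Fin (n + 1) → Λ) j := by
            intro j hj
            simp only [Finset.mem_insert, Finset.mem_map, Fin.coe_succEmb] at hj
            rcases hj with rfl | ⟨i, hi, rfl⟩
            · simp
            · simp only [Fin.cons_succ]
              rw [hz i hi]
              simp [hi]
          refine le_trans ?_ (Finset.single_le_sum (f := fun c : Λ =>
            if (∀ j ∈ insert 0 (S.map (Fin.succEmb n)),
              (Fin.cons c z : Fin (n + 1) → Λ) j =
              if j ∈ J then (Fin.cons b g : Fin (n + 1) → Λ) j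
                else (Fin.cons a f : Fin (n + 1) → Λ) j) then ω (Fin.cons c z) else 0)
            (fun _ _ => Nat.zero_le _) (mem_univ (if (0 : Fin (n + 1)) ∈ J then b else a)))
          rw [if_pos hP]
          split_ifs
          · exact min_le_right _ _
          · exact min_le_left _ _
        · exact Nat.zero_le _
    -- otherwise the sum is small
    exfalso
    push Not at hmax hmin
    have hpair : ∑ q ∈ (univ : Finset (Λ × Λ)).filter (fun q => q.1 ≠ q.2),
        (∑ z : Fin n → Λ, min (ω (Fin.cons q.1 z)) (ω (Fin.cons q.2 z))) * X ^ n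
        ≤ Fintype.card Λ ^ 2 * (θ * X ^ (k - 1) * (X + Fintype.card Λ ^ 2) ^ n) := by
      refine (Finset.sum_le_card_nsmul _ _ _ (fun q hq => hmin q ?_)).trans ?_
      · simpa using hq
      · rw [smul_eq_mul]
        refine Nat.mul_le_mul_right _ ?_
        refine (Finset.card_filter_le _ _).trans ?_
        rw [Finset.card_univ, Fintype.card_prod, sq]
    have htot : ∑ τ, ω τ ≤ (∑ z : Fin n → Λ, univ.sup (fun a => ω (Fin.cons a z))) +
        ∑ q ∈ (univ : Finset (Λ × Λ)).filter (fun q => q.1 ≠ q.2),
        (∑ z : Fin n → Λ, min (ω (Fin.cons q.1 z)) (ω (Fin.cons q.2 z))) := by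
      rw [sum_cons, Finset.sum_comm, Finset.sum_comm (s := univ.filter _), ← Finset.sum_add_distrib]
      exact Finset.sum_le_sum fun z _ => sum_le_sup_add_min (fun a => ω (Fin.cons a z))
    have h1 : (∑ τ, ω τ) * X ^ n ≤ θ * X ^ k * (X + Fintype.card Λ ^ 2) ^ n +
        Fintype.card Λ ^ 2 * (θ * X ^ (k - 1) * (X + Fintype.card Λ ^ 2) ^ n) := by
      refine (Nat.mul_le_mul_right _ htot).trans ?_
      rw [add_mul, Finset.sum_mul (s := univ.filter _)]
      exact Nat.add_le_add hmax hpair
    have h2 : (∑ τ, ω τ) * X ^ (n + 1) ≤ θ * X ^ k * (X + Fintype.card Λ ^ 2) ^ (n + 1) := by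
      obtain ⟨k, rfl⟩ : ∃ k', k = k' + 1 := ⟨k - 1, by omega⟩
      simp only [Nat.add_sub_cancel] at h1
      calc (∑ τ, ω τ) * X ^ (n + 1) = X * ((∑ τ, ω τ) * X ^ n) := by ring
        _ ≤ X * (θ * X ^ (k + 1) * (X + Fintype.card Λ ^ 2) ^ n +
          Fintype.card Λ ^ 2 * (θ * X ^ k * (X + Fintype.card Λ ^ 2) ^ n)) :=
            Nat.mul_le_mul_left _ h1
        _ = θ * X ^ (k + 1) * (X + Fintype.card Λ ^ 2) ^ (n + 1) := by ring
    omega

end Pool.Agent.T9h20.SC
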